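import Pool.Agent.W2helper41.L.Dsc
import Pool.Agent.Y682.XD.Fin

/-!
# The ranks over the compositum
-/

set_option autoImplicit false
set_option linter.unusedSectionVars false
set_option linter.unusedVariables false

open NumberField IsDedekindDomain IsCyclotomicExtension.Rat H300.HW

namespace Pool.Agent.W2helper41.M

open Pool.Agent.TH841.NF.D (rk)

open Pool.Agent.Y682 (gc NCl)

open Pool.Agent.Y682.XD

open Pool.Agent.W2helper41.L (Cnd stabT)

section

variable {q : ℕ} [NeZero q] {L : Type} [Field L] [NumberField L] [IsCyclotomicExtension {q} ℚ L]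
  {K₁ : IntermediateField ℚ L}

lemma Cnd_mul {a b : ℤ} (ha : Cnd q K₁ a) (hb : Cnd q K₁ b) : Cnd q K₁ (a * b) := by
  intro p hp hpd
  rcases (Nat.prime_iff_prime_int.1 hp).dvd_or_dvd hpd with h | h
  · exact ha p hp h
  · exact hb p hp h

lemma Cnd_one : Cnd q K₁ 1 := by
  intro p hp h1
  exfalso
  have h3 : (p : ℤ) ≤ 1 := Int.le_of_dvd one_pos h1
  have := hp.two_le
  omega

/-- **The ranks** -/
theorem rank_stableM (hQF : S_QF) (hDEG : S_DEG2) (hSUP : S_SUP) (hRKE : S_RKE)
    (K : IntermediateField ℚ ℂ) [NumberField K]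
    (e : K ≃+* K₁) (hreal : ∀ w : InfinitePlace K₁, w.IsReal) (hN : Odd (Nat.card (NCl K₁)))
    (hodd : Odd (Module.finrank ℚ K₁)) (hodd' : Odd (Module.finrank ℚ K))
    (h2 : (Ideal.span {((2 : ℕ) : 𝓞 K₁)}).IsPrime) (h7 : (Ideal.span {((7 : ℕ) : 𝓞 K₁)}).IsPrime)
    (S : Finset ℤ) : (∀ d ∈ S, Odd d ∧ Cnd q K₁ d) →
    (FiniteDimensional ℚ (mq S) ∧ ∃ n, Module.finrank ℚ (mq S) = 2 ^ n) ∧
    ∀ (F₀ F : IntermediateField ℚ ℂ) [NumberField F₀] [NumberField F], F₀ = mq S → F = F₀ ⊔ K →
      ∀ c : ℤ, Odd c → Cnd q K₁ c → RR F c = RR F₀ c := by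
  classical
  induction S using Finset.induction_on with
  | empty =>
    intro _
    refine ⟨⟨?_, 0, ?_⟩, ?_⟩
    · rw [mq_empty]; infer_instance
    · rw [mq_empty, IntermediateField.finrank_bot, pow_zero]
    · intro F₀ F _ _ hF₀ hF c hc h1c
      rw [mq_empty] at hF₀
      subst hF₀
      rw [bot_sup_eq] at hF
      subst hF
      have hc0 : c ≠ 0 := by rintro rfl; exact absurd hc (by decide)
      have hq : RR ℚ c = RR (⊥ : IntermediateField ℚ ℂ) c :=
        RR_iso hRKE (IntermediateField.botEquiv ℚ ℂ).symm.toRingEquiv hc0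
      rw [← hq, RR_iso hRKE e hc0]
      exact ((stabT (q := q) hreal hN hodd h2 h7 hc h1c).1).trans (Pool.Agent.Y657.XD.rk_rat _).symm
  | insert d S hdS ih =>
    intro hS
    obtain ⟨⟨hfd, n, hn⟩, ih'⟩ := ih (fun e he => hS e (Finset.mem_insert_of_mem he))
    obtain ⟨hd, hd1⟩ := hS d (Finset.mem_insert_self _ _)
    have hd0 : d ≠ 0 := by rintro rfl; exact absurd hd (by decide)
    obtain ⟨z, hz⟩ : ∃ z : ℂ, z ^ 2 = (d : ℂ) := IsAlgClosed.exists_pow_nat_eq _ (by norm_num)
    have hins := mq_insert S d hz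
    have hG₀ : NumberField (mq S) := { to_charZero := inferInstance, to_finiteDimensional := hfd }
    have hGf : FiniteDimensional ℚ (mq S ⊔ K : IntermediateField ℚ ℂ) :=
      IntermediateField.finiteDimensional_sup _ _
    have hG : NumberField (mq S ⊔ K : IntermediateField ℚ ℂ) :=
      { to_charZero := inferInstance, to_finiteDimensional := hGf }
    by_cases hz0 : z ∈ mq S
    · have hins' : mq (insert d S) = mq S := by
        rw [hins]
        exact sup_eq_left.2 ((IntermediateField.adjoin_simple_le_iff).2 hz0)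
      rw [hins']
      exact ⟨⟨hfd, n, hn⟩, ih'⟩
    · obtain ⟨hzG, hdeg⟩ := hSUP (mq S) K n hn hodd' z hz0 ⟨d, hz⟩
      refine ⟨⟨?_, n + 1, ?_⟩, ?_⟩
      · rw [hins]
        have : FiniteDimensional ℚ (IntermediateField.adjoin ℚ {z} : IntermediateField ℚ ℂ) :=
          IntermediateField.adjoin.finiteDimensional ⟨Polynomial.X ^ 2 - Polynomial.C (d : ℚ),
            Polynomial.monic_X_pow_sub_C _ (by norm_num), by
              rw [Polynomial.eval₂_sub, Polynomial.eval₂_pow, Polynomial.eval₂_X,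
                Polynomial.eval₂_C, hz, map_intCast, sub_self]⟩
        exact IntermediateField.finiteDimensional_sup _ _
      · rw [hins]; exact hdeg
      · intro F₀ F _ _ hF₀ hF c hc h1c
        have hc0 : c ≠ 0 := by rintro rfl; exact absurd hc (by decide)
        have hF' : F = (mq S ⊔ K) ⊔ IntermediateField.adjoin ℚ {z} := by
          rw [hF, hF₀, hins, sup_right_comm]
        rw [RR_quad hQF hDEG (mq S) F₀ hd0 hz0 hz (hF₀.trans hins) hc0,
          RR_quad hQF hDEG (mq S ⊔ K) F hd0 hzG hz hF' hc0,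
          ih' (mq S) (mq S ⊔ K) rfl rfl c hc h1c,
          ih' (mq S) (mq S ⊔ K) rfl rfl (c * d) (hc.mul hd) (Cnd_mul h1c hd1)]

end

end Pool.Agent.W2helper41.M
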