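import Pool.Agent.Y682.XD.Alg
import Pool.Agent.Y686.XF.Reg

/-!
# The rank over a subfield
-/

set_option autoImplicit false

open NumberField WeierstrassCurve

namespace Pool.Agent.W2helper41.M

open scoped Classical

open Pool.Agent.Y682.XF (base tors rank IsBasis S_CH)

open Pool.Agent.Y682.XD (RR rank_E)

open Pool.Agent.W97.MT (E14)

open Pool.Agent.Y686.XF (io io_injective)

lemma E14_disc : E14.Δ ≠ 0 := by
  unfold E14 WeierstrassCurve.Δ WeierstrassCurve.b₂ WeierstrassCurve.b₄ WeierstrassCurve.b₆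
    WeierstrassCurve.b₈
  norm_num

lemma rank_RR (F : Type) [Field F] [NumberField F] : rank F E14 = RR F 1 := by
  rw [← rank_E F]
  rfl

/-- all the points are torsion points if the rank is zero -/
lemma tors_of_rank (hC : S_CH) (F : Type) [Field F] [NumberField F] {W : WeierstrassCurve ℤ}
    (hW : W.Δ ≠ 0) (h0 : rank F W = 0) (P : (base W F).toAffine.Point) :
    ∃ n : ℕ, 0 < n ∧ n • P = 0 := by
  obtain ⟨h, -, -, -, -, g, hg⟩ := hC F W hW
  obtain ⟨n, hn, -⟩ := hg P
  have h1 : ∑ i, n i • g i = 0 := by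
    refine Finset.sum_eq_zero fun i _ => ?_
    have h2 := i.isLt
    omega
  have h3 : P - ∑ i, n i • g i ∈ tors F W := hn
  rw [h1, sub_zero] at h3
  exact h3

/-- the rank is zero if all the points are torsion points -/
lemma rank_of_tors (F : Type) [Field F] [NumberField F] {W : WeierstrassCurve ℤ}
    (h : ∀ P : (base W F).toAffine.Point, ∃ n : ℕ, 0 < n ∧ n • P = 0) : rank F W = 0 := by
  unfold rank
  have h1 : Module.rank ℤ (base W F).toAffine.Point = 0 := by
    rw [rank_eq_zero_iff]
    intro P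
    obtain ⟨n, hn, hP⟩ := h P
    refine ⟨(n : ℤ), by omega, ?_⟩
    rw [natCast_zsmul, hP]
  unfold Module.finrank
  rw [h1, map_zero]

/-- **the rank over a subfield** -/
theorem rank_sub (hC : S_CH) {K L : Type} [Field K] [NumberField K] [Field L] [NumberField L]
    (f : K →+* L) {W : WeierstrassCurve ℤ} (hW : W.Δ ≠ 0) (h0 : rank L W = 0) : rank K W = 0 := by
  refine rank_of_tors K fun P => ?_
  obtain ⟨n, hn, h1⟩ := tors_of_rank hC L hW h0 (io W f P)
  refine ⟨n, hn, io_injective W f ?_⟩
  rw [map_nsmul, h1, map_zero]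

end Pool.Agent.W2helper41.M
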