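import Pool.Agent.W2helper41.M.Lyr
import Pool.Agent.W2helper41.M.Fin
import Pool.Agent.W2helper41.Y.Exa
import Pool.Agent.W2helper41.X.Par
import Pool.Agent.W2helper41.B.Ap

/-!
# The field generated by the square roots of the inert-type primes and by the layers
-/

set_option autoImplicit false

open Finset NumberField
open scoped symmDiff

namespace Pool.Agent.W2helper41.M

open scoped Classical

open Pool.Agent.W2helper41.X (Spl Ine mat)

open Pool.Agent.W2helper41.Y (Reg RegZ prod_symm mat_prod reg_inert)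

open Pool.Agent.Y682.XD (mq RR)

open Pool.Agent.Y682.XT (fE)

/-- the multiquadratic field -/
noncomputable def mqN (S : Finset ℕ) : IntermediateField ℚ ℂ :=
  IntermediateField.adjoin ℚ {z : ℂ | ∃ d ∈ S, z ^ 2 = (d : ℂ)}

lemma mqN_mono {S T : Finset ℕ} (h : S ⊆ T) : mqN S ≤ mqN T := by
  unfold mqN
  refine IntermediateField.adjoin.mono ℚ _ _ ?_
  rintro z ⟨d, hd, hz⟩
  exact ⟨d, h hd, hz⟩

/-- the field `Ω` -/
noncomputable def Om (D : ℕ) (P : Finset ℕ) : IntermediateField ℚ ℂ :=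
  IntermediateField.adjoin ℚ ({z : ℂ | z ^ 2 = (D : ℂ)} ∪
    ({z : ℂ | ∃ q : ℕ, Ine q ∧ (∀ p ∈ P, IsSquare ((q : ℕ) : ZMod p)) ∧ z ^ 2 = (q : ℂ)} ∪
    {z : ℂ | ∃ (n : ℕ) (ζ : ℂ), ζ ^ 3 ^ n = 1 ∧ z = ζ + ζ⁻¹}))

/-- the elements of `Ω` -/
theorem mem_Om {D : ℕ} {P : Finset ℕ} {x : ℂ} (hx : x ∈ Om D P) :
    ∃ (A : Finset ℕ) (n : ℕ), (∀ q ∈ A, Ine q ∧ ∀ p ∈ P, IsSquare ((q : ℕ) : ZMod p)) ∧
      x ∈ mqN (insert D A) ⊔ Lay (n + 1) := by
  unfold Om at hx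
  have comb : ∀ (A B : Finset ℕ) (m n : ℕ) (y : ℂ), y ∈ mqN (insert D A) ⊔ Lay (m + 1) →
      y ∈ mqN (insert D (A ∪ B)) ⊔ Lay (max m n + 1) := by
    intro A B m n y hy
    exact sup_le_sup (mqN_mono (insert_subset_insert _ subset_union_left))
      (Lay_mono (Nat.succ_le_succ (le_max_left m n))) hy
  have comb' : ∀ (A B : Finset ℕ) (m n : ℕ) (y : ℂ), y ∈ mqN (insert D B) ⊔ Lay (n + 1) →
      y ∈ mqN (insert D (A ∪ B)) ⊔ Lay (max m n + 1) := by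
    intro A B m n y hy
    exact sup_le_sup (mqN_mono (insert_subset_insert _ subset_union_right))
      (Lay_mono (Nat.succ_le_succ (le_max_right m n))) hy
  have hun : ∀ (A B : Finset ℕ), (∀ q ∈ A, Ine q ∧ ∀ p ∈ P, IsSquare ((q : ℕ) : ZMod p)) →
      (∀ q ∈ B, Ine q ∧ ∀ p ∈ P, IsSquare ((q : ℕ) : ZMod p)) →
      ∀ q ∈ A ∪ B, Ine q ∧ ∀ p ∈ P, IsSquare ((q : ℕ) : ZMod p) := by
    intro A B hA hB q hq
    rcases mem_union.1 hq with h | h
    · exact hA q h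
    · exact hB q h
  induction hx using IntermediateField.adjoin_induction with
  | mem z hz =>
    rcases hz with hz | ⟨q, hq, hqP, hz⟩ | ⟨n, ζ, h1, hz⟩
    · refine ⟨∅, 0, by simp, ?_⟩
      refine (le_sup_left : mqN (insert D ∅) ≤ _) ?_
      exact IntermediateField.subset_adjoin ℚ _ ⟨D, mem_insert_self _ _, hz⟩
    · refine ⟨{q}, 0, ?_, ?_⟩
      · intro r hr
        rw [mem_singleton.1 hr]
        exact ⟨hq, hqP⟩
      · refine (le_sup_left : mqN (insert D {q}) ≤ _) ?_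
        exact IntermediateField.subset_adjoin ℚ _ ⟨q, by simp, hz⟩
    · refine ⟨∅, n, by simp, ?_⟩
      refine (le_sup_right : Lay (n + 1) ≤ _) (Lay_mono (Nat.le_succ n) ?_)
      exact IntermediateField.subset_adjoin ℚ _ ⟨ζ, h1, hz⟩
  | algebraMap x => exact ⟨∅, 0, by simp, IntermediateField.algebraMap_mem _ x⟩
  | add x y _ _ ihx ihy =>
    obtain ⟨A, m, hA, h1⟩ := ihx
    obtain ⟨B, n, hB, h2⟩ := ihy
    exact ⟨A ∪ B, max m n, hun A B hA hB, add_mem (comb A B m n x h1) (comb' A B m n y h2)⟩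
  | inv x _ ih =>
    obtain ⟨A, m, hA, h1⟩ := ih
    exact ⟨A, m, hA, inv_mem h1⟩
  | mul x y _ _ ihx ihy =>
    obtain ⟨A, m, hA, h1⟩ := ihx
    obtain ⟨B, n, hB, h2⟩ := ihy
    exact ⟨A ∪ B, max m n, hun A B hA hB, mul_mem (comb A B m n x h1) (comb' A B m n y h2)⟩

/-- the number fields in `Ω` -/
theorem le_Om {D : ℕ} {P : Finset ℕ} (F : IntermediateField ℚ ℂ) [NumberField F] (hF : F ≤ Om D P) :
    ∃ (A : Finset ℕ) (n : ℕ), (∀ q ∈ A, Ine q ∧ ∀ p ∈ P, IsSquare ((q : ℕ) : ZMod p)) ∧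
      F ≤ mqN (insert D A) ⊔ Lay (n + 1) := by
  let b := Module.finBasis ℚ F
  have h1 : ∀ i, ∃ (A : Finset ℕ) (n : ℕ),
      (∀ q ∈ A, Ine q ∧ ∀ p ∈ P, IsSquare ((q : ℕ) : ZMod p)) ∧
      ((b i : F) : ℂ) ∈ mqN (insert D A) ⊔ Lay (n + 1) := fun i => mem_Om (hF (b i).2)
  choose A n hA hb using h1
  refine ⟨univ.biUnion A, univ.sup n, ?_, ?_⟩
  · intro q hq
    obtain ⟨i, -, hi⟩ := mem_biUnion.1 hq
    exact hA i q hi
  · intro x hx
    have h2 : ∀ i, ((b i : F) : ℂ) ∈ mqN (insert D (univ.biUnion A)) ⊔ Lay (univ.sup n + 1) := by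
      intro i
      exact sup_le_sup (mqN_mono (insert_subset_insert _ (subset_biUnion_of_mem A (mem_univ i))))
        (Lay_mono (Nat.succ_le_succ (le_sup (f := n) (mem_univ i)))) (hb i)
    have h3 := b.sum_repr (⟨x, hx⟩ : F)
    have h4 : x = ∑ i, (b.repr (⟨x, hx⟩ : F) i) • ((b i : F) : ℂ) := by
      have h5 := congrArg (fun y : F => (y : ℂ)) h3
      simp only [IntermediateField.coe_sum, IntermediateField.coe_smul] at h5
      exact h5.symm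
    rw [h4]
    exact sum_mem fun i _ => IntermediateField.smul_mem _ (h2 i)

/-- the products -/
theorem reg_any {T P : Finset ℕ} (hT : ∀ q ∈ T, Ine q) (hP : ∀ p ∈ P, Spl p)
    (hc : P.card ≤ 2) (hdet : (mat P (∏ q ∈ T, q)).det ≠ 0) (A : Finset ℕ)
    (hA : ∀ q ∈ A, Ine q ∧ ∀ p ∈ P, IsSquare ((q : ℕ) : ZMod p)) :
    ∀ B ⊆ insert ((∏ q ∈ T, q) * ∏ p ∈ P, p) A, ∃ d g : ℕ, Reg d ∧ 0 < g ∧
      ∏ n ∈ B, n = d * g ^ 2 := by
  intro B hB
  by_cases hB2 : ((∏ q ∈ T, q) * ∏ p ∈ P, p) ∈ B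
  · obtain ⟨B', hB'⟩ : ∃ B', B' = B.erase ((∏ q ∈ T, q) * ∏ p ∈ P, p) := ⟨_, rfl⟩
    have hBA : B' ⊆ A := by
      intro x hx
      rw [hB'] at hx
      obtain ⟨h1, h2⟩ := mem_erase.1 hx
      exact (mem_insert.1 (hB h2)).resolve_left h1
    have hB'I : ∀ q ∈ B', Ine q ∧ ∀ p ∈ P, IsSquare ((q : ℕ) : ZMod p) := fun q hq => hA q (hBA hq)
    have hsym : ∀ q ∈ T ∆ B', Ine q := by
      intro q hq
      rcases mem_symmDiff.1 hq with h | h
      · exact hT q h.1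
      · exact (hB'I q h.1).1
    have hint : ∀ q ∈ T ∩ B', Ine q ∧ ∀ p ∈ P, IsSquare ((q : ℕ) : ZMod p) :=
      fun q hq => hB'I q (mem_inter.1 hq).2
    have hps : (∏ q ∈ T ∆ B', q) * (∏ q ∈ T ∩ B', q) ^ 2 = (∏ q ∈ T, q) * ∏ q ∈ B', q :=
      prod_symm T B' (fun q => q)
    have h4 : ∀ U : Finset ℕ, (∀ q ∈ U, Ine q) → (∏ q ∈ U, q) % 4 = 1 := fun U hU =>
      Pool.Agent.W2helper41.X.T_four hU
    have hnd : ∀ U : Finset ℕ, (∀ q ∈ U, Ine q) → ∀ p ∈ P, ¬ p ∣ ∏ q ∈ U, q := fun U hU p hp =>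
      Pool.Agent.Y687.split_not_dvd (hP p hp) hU
    have hm1 : mat P ((∏ q ∈ T, q) * ∏ q ∈ B', q) = mat P (∏ q ∈ T, q) :=
      mat_prod hP (h4 T hT) (hnd T hT) B' hB'I
    have hm2 : mat P ((∏ q ∈ T ∆ B', q) * ∏ q ∈ T ∩ B', q) = mat P (∏ q ∈ T ∆ B', q) :=
      mat_prod hP (h4 _ hsym) (hnd _ hsym) (T ∩ B') hint
    have hm3 : mat P (((∏ q ∈ T ∆ B', q) * ∏ q ∈ T ∩ B', q) * ∏ q ∈ T ∩ B', q) =
        mat P ((∏ q ∈ T ∆ B', q) * ∏ q ∈ T ∩ B', q) := by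
      refine mat_prod hP ?_ ?_ (T ∩ B') hint
      · rw [Nat.mul_mod, h4 _ hsym, h4 _ fun q hq => (hint q hq).1]
      · intro p hp
        rw [(hP p hp).1.dvd_mul, not_or]
        exact ⟨hnd _ hsym p hp, hnd _ (fun q hq => (hint q hq).1) p hp⟩
    refine ⟨(∏ q ∈ T ∆ B', q) * ∏ p ∈ P, p, ∏ q ∈ T ∩ B', q,
      ⟨T ∆ B', P, hsym, hP, hc, rfl, ?_⟩, ?_, ?_⟩
    · rw [← hm2, ← hm3, mul_assoc, ← pow_two, hps, hm1]
      exact hdet
    · exact prod_pos fun q hq => (hint q hq).1.1.pos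
    · rw [← mul_prod_erase B (fun n => n) hB2, ← hB']
      have e : ((∏ q ∈ T, q) * ∏ p ∈ P, p) * ∏ n ∈ B', n =
          ((∏ q ∈ T, q) * ∏ q ∈ B', q) * ∏ p ∈ P, p := by ring
      rw [e, ← hps]
      ring
  · have hBA : B ⊆ A := by
      intro x hx
      exact (mem_insert.1 (hB hx)).resolve_left fun h => hB2 (h ▸ hx)
    exact ⟨∏ n ∈ B, n, 1, reg_inert fun q hq => (hA q (hBA hq)).1, one_pos, by ring⟩

/-- **the number fields in `Ω`** -/
theorem omega_main {T P : Finset ℕ} (hT : ∀ q ∈ T, Ine q) (hP : ∀ p ∈ P, Spl p)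
    (hc : P.card ≤ 2) (hdet : (mat P (∏ q ∈ T, q)).det ≠ 0)
    (h9 : ∀ p ∈ P, p % 9 = 2 ∨ p % 9 = 4 ∨ p % 9 = 5 ∨ p % 9 = 7)
    (F : IntermediateField ℚ ℂ) [NumberField F] (hF : F ≤ Om ((∏ q ∈ T, q) * ∏ p ∈ P, p) P) :
    ∃ G : ℂ → ℂ, Differentiable ℂ G ∧
      (∀ z : ℂ, 3 / 2 < z.re → HasProd (fE (K := F) z) (G z)) ∧ G 1 ≠ 0 ∧ RR F 1 = 0 := by
  obtain ⟨A, n, hA, hFA⟩ := le_Om F hF
  obtain ⟨hfd, hodd⟩ := Lay_odd n
  have hnf : NumberField (Lay (n + 1)) := { to_charZero := inferInstance, to_finiteDimensional := hfd }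
  have hz : NeZero (3 ^ (n + 1)) := ⟨by positivity⟩
  obtain ⟨D, hD⟩ : ∃ D, D = (∏ q ∈ T, q) * ∏ p ∈ P, p := ⟨_, rfl⟩
  have hDr : Reg D := ⟨T, P, hT, hP, hc, hD, hdet⟩
  have hany := reg_any hT hP hc hdet A hA
  rw [← hD] at hany hFA
  refine mainM Pool.Agent.W2helper41.Y.parts Pool.Agent.W2helper41.X.parts (3 ^ (n + 1))
    (Nat.prime_three.isPrimePow.pow (Nat.succ_ne_zero n)) (Nat.Coprime.pow_left _ (by norm_num))
    (Lay (n + 1)) (Lay_le (n + 1)) hodd (Or.inl (dvd_pow_self 3 (Nat.succ_ne_zero n)))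
    ((insert D A).map (Nat.castEmbedding (R := ℤ))) ?_ (Pool.Agent.W2helper41.Y.regz_of hany) F ?_
  · intro d hd
    obtain ⟨k, hk, rfl⟩ := mem_map.1 hd
    have hkr : Reg k := by
      rcases mem_insert.1 hk with rfl | hk
      · exact hDr
      · have h1 := reg_inert (A := {k}) fun q hq => by
          rw [mem_singleton.1 hq]
          exact (hA k hk).1
        rwa [prod_singleton] at h1
    refine ⟨Int.squarefree_natCast.2 hkr.sqf, ?_, ?_⟩
    · have h4 := hkr.four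
      show ((k : ℕ) : ℤ) % 4 = 1
      omega
    · intro p hp hpk
      have hpk' : p ∣ k := Int.natCast_dvd_natCast.1 hpk
      have hpt : Ine p ∨ p ∈ P := by
        rcases mem_insert.1 hk with h | h
        · rw [h, hD, hp.dvd_mul] at hpk'
          rcases hpk' with h1 | h1
          · exact Or.inl (hT p (Y687.dvd_prod_primes (fun q hq => (hT q hq).1) hp h1))
          · exact Or.inr (Y687.dvd_prod_primes (fun q hq => (hP q hq).1) hp h1)
        · have h1 := (Nat.prime_dvd_prime_iff_eq hp (hA k h).1.1).1 hpk'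
          rw [h1]
          exact Or.inl (hA k h).1
      refine ⟨hkr.not_dvd hp hpk', ?_, hkr.primes hp hpk', ?_⟩
      · intro h3
        have h4 := (Nat.prime_dvd_prime_iff_eq hp Nat.prime_three).1 (hp.dvd_of_dvd_pow h3)
        rcases hpt with h5 | h5
        · have := h5.2.1
          omega
        · have := (hP p h5).2.1
          omega
      · rcases hpt with h5 | h5
        · exact Or.inl h5
        · exact Or.inr (Pool.Agent.W2helper41.B.layer_inert n (Lay (n + 1)) (Lay_le (n + 1)) hodd hp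
            (h9 p h5))
  · rw [← Pool.Agent.W2helper41.Y.mq_nat]
    exact hFA

end Pool.Agent.W2helper41.M
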