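import Mathlib

/-!
# The layers of the cyclotomic `ℤ₃`-extension as explicit subfields of the complex numbers
-/

set_option autoImplicit false

open IsCyclotomicExtension.Rat

namespace Pool.Agent.W2helper41.M

open scoped Classical

/-- the layer -/
noncomputable def Lay (n : ℕ) : IntermediateField ℚ ℂ :=
  IntermediateField.adjoin ℚ {z : ℂ | ∃ ζ : ℂ, ζ ^ 3 ^ n = 1 ∧ z = ζ + ζ⁻¹}

lemma Lay_mono {m n : ℕ} (h : m ≤ n) : Lay m ≤ Lay n := by
  unfold Lay
  refine IntermediateField.adjoin.mono ℚ _ _ ?_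
  rintro z ⟨ζ, h1, h2⟩
  obtain ⟨k, rfl⟩ := Nat.exists_eq_add_of_le h
  exact ⟨ζ, by rw [pow_add, pow_mul, h1, one_pow], h2⟩

lemma Lay_le (n : ℕ) : Lay n ≤ IntermediateField.adjoin ℚ {z : ℂ | z ^ 3 ^ n = 1} := by
  unfold Lay
  rw [IntermediateField.adjoin_le_iff]
  rintro z ⟨ζ, h1, rfl⟩
  have h2 : ζ ∈ IntermediateField.adjoin ℚ {z : ℂ | z ^ 3 ^ n = 1} :=
    IntermediateField.subset_adjoin ℚ _ h1
  exact add_mem h2 (inv_mem h2)

/-- the layers are of odd degree -/
theorem Lay_odd (n : ℕ) : FiniteDimensional ℚ (Lay (n + 1)) ∧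
    Odd (Module.finrank ℚ (Lay (n + 1))) := by
  obtain ⟨N, hN⟩ : ∃ N, N = 3 ^ (n + 1) := ⟨_, rfl⟩
  have hN0 : NeZero N := ⟨by rw [hN]; positivity⟩
  have hN2 : 2 < N := by
    rw [hN, pow_succ]
    have := Nat.one_le_pow n 3 (by norm_num)
    omega
  let L := CyclotomicField N ℚ
  have hc : IsCyclotomicExtension {N} ℚ L := CyclotomicField.isCyclotomicExtension N ℚ
  have hfd : FiniteDimensional ℚ L := IsCyclotomicExtension.finiteDimensional {N} ℚ L
  have hgal : IsGalois ℚ L := IsCyclotomicExtension.isGalois {N} ℚ L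
  obtain ⟨σ, hσ⟩ : ∃ σ : Gal(L/ℚ), galEquivZMod N L σ = -1 :=
    ⟨(galEquivZMod N L).symm (-1), MulEquiv.apply_symm_apply _ _⟩
  have hσ2 : σ ^ 2 = 1 := by
    apply (galEquivZMod N L).injective
    rw [map_pow, hσ, map_one]
    norm_num
  have hσ1 : σ ≠ 1 := by
    intro h
    rw [h, map_one] at hσ
    have h1 := congrArg Units.val hσ
    have h2 : Fact (2 < N) := ⟨hN2⟩
    exact (ZMod.neg_one_ne_one (n := N)).symm (by simpa using h1)
  have hord : orderOf σ = 2 := orderOf_eq_prime hσ2 hσ1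
  have hact : ∀ x : L, x ^ N = 1 → σ x = x⁻¹ := by
    intro x hx
    rw [galEquivZMod_apply_of_pow_eq N L σ hx, hσ]
    have h1 : ((-1 : (ZMod N)ˣ) : ZMod N).val = N - 1 := by
      obtain ⟨k, rfl⟩ : ∃ k, N = k + 1 := ⟨N - 1, by omega⟩
      rw [Units.val_neg, Units.val_one, ZMod.val_neg_one]
      rfl
    have hx0 : x ≠ 0 := by
      rintro rfl
      rw [zero_pow (by omega)] at hx
      exact zero_ne_one hx
    rw [h1]
    apply eq_inv_of_mul_eq_one_left
    rw [← pow_succ, Nat.sub_add_cancel (by omega), hx]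
  let H : Subgroup Gal(L/ℚ) := Subgroup.zpowers σ
  let K₁ : IntermediateField ℚ L := IntermediateField.fixedField H
  have hK1 : Module.finrank K₁ L = 2 := by
    rw [IntermediateField.finrank_fixedField_eq_card, Nat.card_zpowers, hord]
  have htot : N.totient = 3 ^ n * 2 := by
    rw [hN, Nat.totient_prime_pow_succ Nat.prime_three]
  have hfinL : Module.finrank ℚ L = 3 ^ n * 2 :=
    (IsCyclotomicExtension.Rat.finrank N L).trans htot
  have hfin : Module.finrank ℚ K₁ * 2 = 3 ^ n * 2 := by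
    have h1 := Module.finrank_mul_finrank ℚ K₁ L
    rw [hK1] at h1
    rw [h1, hfinL]
  have hfin' : Module.finrank ℚ K₁ = 3 ^ n := Nat.eq_of_mul_eq_mul_right two_pos hfin
  let φ : L →ₐ[ℚ] ℂ := IsAlgClosed.lift
  have hle : Lay (n + 1) ≤ K₁.map φ := by
    unfold Lay
    rw [IntermediateField.adjoin_le_iff]
    rintro z ⟨ζ, h1, rfl⟩
    rw [← hN] at h1
    have hη := IsCyclotomicExtension.zeta_spec N ℚ L
    have hη' : IsPrimitiveRoot (φ (IsCyclotomicExtension.zeta N ℚ L)) N :=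
      hη.map_of_injective φ.injective
    obtain ⟨i, -, hi⟩ := hη'.eq_pow_of_pow_eq_one h1
    refine ⟨IsCyclotomicExtension.zeta N ℚ L ^ i + (IsCyclotomicExtension.zeta N ℚ L ^ i)⁻¹, ?_, ?_⟩
    · have h2 : (IsCyclotomicExtension.zeta N ℚ L ^ i) ^ N = 1 := by
        rw [← pow_mul, mul_comm, pow_mul, hη.pow_eq_one, one_pow]
      have h3 : σ (IsCyclotomicExtension.zeta N ℚ L ^ i +
          (IsCyclotomicExtension.zeta N ℚ L ^ i)⁻¹) =
          IsCyclotomicExtension.zeta N ℚ L ^ i + (IsCyclotomicExtension.zeta N ℚ L ^ i)⁻¹ := by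
        rw [map_add, map_inv₀, hact _ h2, inv_inv, add_comm]
      show _ ∈ (IntermediateField.fixedField H : Set L)
      rw [SetLike.mem_coe, IntermediateField.mem_fixedField_iff]
      intro τ hτ
      have h4 : σ ∈ MulAction.stabilizer Gal(L/ℚ) (IsCyclotomicExtension.zeta N ℚ L ^ i +
          (IsCyclotomicExtension.zeta N ℚ L ^ i)⁻¹) := h3
      exact (Subgroup.zpowers_le.2 h4) hτ
    · show φ _ = _
      rw [map_add, map_inv₀, map_pow, hi]
  have hfdm : FiniteDimensional ℚ (K₁.map φ) :=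
    Module.Finite.equiv (IntermediateField.equivMap K₁ φ).toLinearEquiv
  have hrk : Module.finrank ℚ (K₁.map φ) = 3 ^ n := by
    rw [← hfin']
    exact (IntermediateField.equivMap K₁ φ).toLinearEquiv.finrank_eq.symm
  refine ⟨FiniteDimensional.of_injective (IntermediateField.inclusion hle).toLinearMap
    (IntermediateField.inclusion hle).injective, ?_⟩
  have h5 := IntermediateField.finrank_dvd_of_le_right hle
  rw [hrk] at h5
  exact Odd.of_dvd_nat (Odd.pow (by decide)) h5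

end Pool.Agent.W2helper41.M
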