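import Pool.Agent.W2helper41.L.Val
import Pool.Agent.Y682.XD.Bas

/-!
# Nonvanishing of the central values of the mixed twists
-/

set_option autoImplicit false
set_option linter.unusedSectionVars false
set_option linter.unusedVariables false

open Finset NumberField IsCyclotomicExtension.Rat H300.HW

namespace Pool.Agent.W2helper41.M

open scoped Classical

open Pool.Agent.W97.MT (ap E14 II)

open Pool.Agent.Y687 (Symb Symb2)

open Pool.Agent.Y682.XT hiding unitsMap_neg

open Pool.Agent.Y682.XD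

open Pool.Agent.Y682.XF hiding core2 prod_D val_D

open Pool.Agent.W2helper41.L

/-- the conductor does not depend on the level -/
lemma cond_lev {d n : ℕ} [NeZero n] [NeZero d] (h : d ∣ n) (ψ : DirichletCharacter ℂ d) :
    (DirichletCharacter.changeLevel h ψ).conductor = ψ.conductor := by
  have h1 : DirichletCharacter.changeLevel h ψ =
      DirichletCharacter.changeLevel (ψ.conductor_dvd_level.trans h) ψ.primitiveCharacter := by
    conv_lhs => rw [← ψ.changeLevel_primitiveCharacter]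
    rw [← DirichletCharacter.changeLevel_trans]
  rw [h1]
  exact conductor_changeLevel _ ψ.primitiveCharacter_isPrimitive

section

variable {q d : ℕ} [NeZero q] [NeZero d] [NeZero (q * d)] {L : Type} [Field L] [NumberField L]
  [IsCyclotomicExtension {q} ℚ L] {K : IntermediateField ℚ L}

/-- **the nonvanishing** -/
theorem nv_T (hH : S_HECKE) (hPR : S_PRIM) {s t : ℚ → ℤ} {Op Om : ℝ} (hSy : Sy s t Op Om)
    (hK : HypK s (fun l => ap E14 l) q L K) {m : ℕ} [NeZero (q * m)] (hdm : q * d ∣ q * m)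
    (hdsq : Squarefree d) (hd : DD q L K (fun l => ap E14 l) d)
    {δ : DirichletCharacter ℂ d} (hδp : δ.IsPrimitive) (hδ1 : δ (-1) = 1)
    (hδj : ∀ u : (ZMod d)ˣ, δ (u : ZMod d) = (jacobiSym ((u : ZMod d).val : ℤ) d : ℂ))
    (ψ : GG q L K →* ℂˣ) (hψ : ψ ≠ 1) {χ : DirichletCharacter ℂ (q * m)}
    (hχ : χ = DirichletCharacter.changeLevel hdm (XX δ (cf q L K ψ))) {x g : ℂ}
    (hG : haveI : NeZero χ.conductor := ⟨χ.conductor_ne_zero⟩
      g * x = ∑ u : (ZMod χ.conductor)ˣ, (χ.primitiveCharacter)⁻¹ (u : ZMod χ.conductor) *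
          II (((u : ZMod χ.conductor).val : ℚ) / χ.conductor)) : x ≠ 0 := by
  have hd0 : d ≠ 0 := NeZero.ne d
  have hqd : q.Coprime d := by
    refine Nat.coprime_of_dvd ?_
    intro p hp hpq hpd
    exact (hd p hp hpd).1 (dvd_mul_of_dvd_right hpq _)
  have hd14 : d.Coprime 14 := by
    refine Nat.coprime_of_dvd ?_
    intro p hp hpd hp14
    exact (hd p hp hpd).1 (dvd_mul_of_dvd_left hp14 _)
  have hdo : Odd d := by
    have : d.Coprime 2 := Nat.Coprime.coprime_dvd_right (by norm_num) hd14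
    exact Nat.coprime_two_right.1 this
  have hδ : ∀ u : (ZMod d)ˣ, δ (u : ZMod d) = 1 ∨ δ (u : ZMod d) = -1 := by
    intro u
    rw [hδj u]
    have hco : IsCoprime (((u : ZMod d).val : ℤ)) (d : ℤ) :=
      Nat.isCoprime_iff_coprime.2 (ZMod.val_coe_unit_coprime u)
    rcases jacobiSym.trichotomy ((u : ZMod d).val : ℤ) d with h | h | h
    · exfalso
      rw [jacobiSym.eq_zero_iff_not_coprime] at h
      exact h (Int.isCoprime_iff_gcd_eq_one.1 hco)
    · left; rw [h]; push_cast; rfl
    · right; rw [h]; push_cast; rfl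
  have hδi : δ⁻¹ = δ := quad_inv hδ
  -- the sign character as an integral function
  obtain ⟨ε, hεdef⟩ : ∃ ε : (ZMod d)ˣ → ℤ, ∀ u, ε u = if δ (u : ZMod d) = 1 then 1 else -1 :=
    ⟨fun u => if δ (u : ZMod d) = 1 then 1 else -1, fun _ => rfl⟩
  have hε2 : ∀ u, (ε u : ℂ) = δ (u : ZMod d) := by
    intro u
    by_cases h : δ (u : ZMod d) = 1
    · rw [hεdef, if_pos h, h, Int.cast_one]
    · rw [hεdef, if_neg h]
      rcases hδ u with h1 | h1
      · exact absurd h1 h
      · rw [h1]; push_cast; rfl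
  have hε3 : ∀ u : (ZMod d)ˣ, ε u = ∏ p ∈ d.primeFactors, jc p u := by
    intro u
    have h1 : ((∏ p ∈ d.primeFactors, jc p u : ℤ) : ℂ) = (ε u : ℂ) := by
      rw [hε2, hδj]
      congr 1
      have h2 := Pool.Agent.Y687.jac_prod ((u : ZMod d).val : ℤ) d.primeFactors
        (fun p hp => Nat.prime_of_mem_primeFactors hp)
      rw [Nat.prod_primeFactors_of_squarefree hdsq] at h2
      rw [h2]
      rfl
    exact_mod_cast h1.symm
  have hfG : Fintype (GG q L K) := Fintype.ofFinite _
  -- the conductor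
  have hnz : NeZero χ.conductor := ⟨χ.conductor_ne_zero⟩
  have hnf : NeZero (cf q L K ψ).conductor := ⟨(cf q L K ψ).conductor_ne_zero⟩
  have hnfd : NeZero ((cf q L K ψ).conductor * d) :=
    ⟨mul_ne_zero (cf q L K ψ).conductor_ne_zero hd0⟩
  have hcond : χ.conductor = (cf q L K ψ).conductor * d := by
    rw [hχ, cond_lev]
    exact (hPR q d hqd (cf q L K ψ) δ hδp).1
  have hFN : χ.conductor ∣ q * d := by
    rw [hcond]
    exact mul_dvd_mul_right (cf q L K ψ).conductor_dvd_level d
  have hlev : DirichletCharacter.changeLevel hFN χ.primitiveCharacter = XX δ (cf q L K ψ) := by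
    apply DirichletCharacter.changeLevel_injective hdm
    rw [← DirichletCharacter.changeLevel_trans, ← hχ]
    exact χ.changeLevel_primitiveCharacter
  have hpar : χ.primitiveCharacter (-1) = 1 := by
    have h1 : XX δ (cf q L K ψ) (-1) = 1 := by
      rw [XX_neg, even_cf hK.hre ψ, one_mul, hδ1]
    rw [← hlev] at h1
    have h2 : ((-1 : (ZMod (q * d))ˣ) : ZMod (q * d)) = -1 := by simp
    rw [← h2, DirichletCharacter.changeLevel_eq_cast_of_dvd] at h1
    rw [← h1]
    congr 1
    rw [h2, ZMod.cast_neg hFN, ZMod.cast_one hFN]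
  have hne : cf q L K ψ ≠ 1 := fun h => hψ (cf_inj (h.trans cf_one.symm))
  have hf1 : 1 < χ.conductor := by
    rw [hcond]
    have h2 : (cf q L K ψ).conductor ≠ 1 := fun h =>
      hne (((cf q L K ψ).eq_one_iff_conductor_eq_one).2 h)
    have h3 := (cf q L K ψ).conductor_ne_zero
    exact lt_of_lt_of_le (by omega : 1 < (cf q L K ψ).conductor)
      (Nat.le_mul_of_pos_right _ (Nat.pos_of_ne_zero hd0))
  have hfo : Odd χ.conductor := Odd.of_dvd_nat (hK.hq.mul hdo) hFN
  intro hx
  rw [hx, mul_zero, II_sum hSy.re hfo hf1 (by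
    rw [MulChar.inv_apply_eq_inv', hpar, inv_one])] at hG
  have h3 : (2 * (Op : ℂ) / 3) ≠ 0 := by
    have : (Op : ℂ) ≠ 0 := by exact_mod_cast hSy.pos.ne'
    exact div_ne_zero (mul_ne_zero two_ne_zero this) (by norm_num)
  have h4 := (mul_eq_zero.1 hG.symm).resolve_left h3
  rw [sum_X hε2 hδi ψ s (cf q L K ψ).conductor_dvd_level rfl χ.conductor hcond hFN
    χ.primitiveCharacter hlev] at h4
  -- the sum
  obtain ⟨k, hk1, hk2, ⟨π⟩⟩ := exists_red
  have hψ' : ψ⁻¹ ≠ 1 := by
    intro h
    apply hψ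
    refine MonoidHom.ext fun g => ?_
    have h1 := DFunLike.congr_fun h g
    rw [MonoidHom.inv_apply, MonoidHom.one_apply, inv_eq_one] at h1
    rw [h1, MonoidHom.one_apply]
  have hcc : (cf q L K ψ⁻¹).conductor = (cf q L K ψ).conductor := by
    rw [cf_inv, DirichletCharacter.conductor_inv]
  obtain ⟨h, hh1, hh2⟩ := core3 hH hK (cf q L K ψ).conductor_dvd_level hdsq hd ε hε3 k π ψ⁻¹ hψ'
    hcc
  rw [h4] at hh1
  rcases mul_eq_zero.1 hh1.symm with h5 | h5
  · exact pow_ne_zero _ two_ne_zero h5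
  · apply hh2
    have h6 : h = 0 := io_inj (by rw [h5, map_zero])
    rw [h6, map_zero]

end

end Pool.Agent.W2helper41.M
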